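import Pool.Agent.H48G.Main

namespace Pool.Agent.Results.MP_2033ac_nt.OddCharGaps

open Polynomial

theorem result (F : Type*) [Field F] [Fintype F] (p : ℕ) [CharP F p] (hp : p ≠ 2) :
    ∃ c : ℝ, 0 < c ∧ ∃ N₀ : ℕ, ∀ N : ℕ, N₀ ≤ N → ∃ (d : ℕ) (f₀ : F[X]),
      f₀.Monic ∧ f₀.natDegree = N ∧ d < N ∧
      c * ((N : ℝ) / Real.log N) ^ ((p : ℝ) / (p - 1)) ≤ (Fintype.card F : ℝ) ^ d ∧
      ∀ g : F[X], g.degree < (d : WithBot ℕ) → ¬ Irreducible (f₀ + g) :=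
  Pool.Agent.H48G.main F p hp

end Pool.Agent.Results.MP_2033ac_nt.OddCharGaps
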